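import Pool.Agent.Q208.Doeblin

set_option autoImplicit false

/-! The mean profit of the cooperative Parrondo game is not monotone in `p 0` nor in `p 3`. -/

namespace Pool.Agent.Results.MP_313e16_pr.NotMonotone

open Finset Filter Topology

/-- configurations of `N` players, indexed cyclically -/
abbrev Conf (N : ℕ) : Type := Fin N → Bool

/-- `x` with coordinate `i` flipped -/
def flip {N : ℕ} (x : Conf N) (i : Fin N) : Conf N := Function.update x i (!x i)

/-- `m_i(x) = 2 x_{i-1} + x_{i+1}`, indices modulo `N` -/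
def nbr {N : ℕ} [NeZero N] (x : Conf N) (i : Fin N) : Fin 4 :=
  (if x (i - 1) then 2 else 0) + (if x (i + 1) then 1 else 0)

/-- probability that the selected player `i` changes its status:
`p_{m_i(x)}` if `x_i = 0` and `1 - p_{m_i(x)}` if `x_i = 1` -/
noncomputable def rate {N : ℕ} [NeZero N] (p : Fin 4 → ℝ) (x : Conf N) (i : Fin N) : ℝ :=
  if x i then 1 - p (nbr x i) else p (nbr x i)

/-- the transition matrix `P(x, x^i) = N⁻¹ * rate p x i`, the remaining mass being on the diagonal -/
noncomputable def trans (N : ℕ) [NeZero N] (p : Fin 4 → ℝ) : Matrix (Conf N) (Conf N) ℝ :=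
  fun x y => (∑ i, if y = flip x i then (1 / (N : ℝ)) * rate p x i else 0) +
    (if y = x then 1 - ∑ i, (1 / (N : ℝ)) * rate p x i else 0)

/-- `ν` is a probability distribution -/
def IsDist {S : Type} [Fintype S] (ν : S → ℝ) : Prop := (∀ x, 0 ≤ ν x) ∧ ∑ x, ν x = 1

/-- `P` is ergodic with stationary distribution `π`: `π` is the only stationary distribution and
the law at time `n` converges to `π` for every initial distribution -/
def IsErgodicWith {S : Type} [Fintype S] [DecidableEq S] (P : Matrix S S ℝ) (π : S → ℝ) : Prop :=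
  IsDist π ∧ Matrix.vecMul π P = π ∧
    (∀ π' : S → ℝ, IsDist π' → Matrix.vecMul π' P = π' → π' = π) ∧
    ∀ ν : S → ℝ, IsDist ν → ∀ y, Tendsto (fun n : ℕ => (Matrix.vecMul ν (P ^ n)) y) atTop (𝓝 (π y))

/-- mean profit per turn: `N⁻¹ ∑_x π(x) ∑_i (p_{m_i(x)} - q_{m_i(x)})` -/
noncomputable def meanProfit (N : ℕ) [NeZero N] (p : Fin 4 → ℝ) (π : Conf N → ℝ) : ℝ :=
  (1 / (N : ℝ)) * ∑ x, π x * ∑ i, (p (nbr x i) - (1 - p (nbr x i)))

/-! ### ergodicity when all parameters are in `(0, 1)` -/

section ergodic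

variable {N : ℕ} [NeZero N] (p : Fin 4 → ℝ)

lemma rate_pos (hp : ∀ m, 0 < p m ∧ p m < 1) (x : Conf N) (i : Fin N) :
    0 < rate p x i := by
  unfold rate
  split_ifs
  · linarith [(hp (nbr x i)).2]
  · exact (hp _).1

lemma rate_lt (hp : ∀ m, 0 < p m ∧ p m < 1) (x : Conf N) (i : Fin N) :
    rate p x i < 1 := by
  unfold rate
  split_ifs
  · linarith [(hp (nbr x i)).1]
  · exact (hp _).2

lemma sum_rate_le (hp : ∀ m, 0 < p m ∧ p m < 1) (x : Conf N) :
    ∑ i, (1 / (N : ℝ)) * rate p x i ≤ 1 := by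
  have hN : (0 : ℝ) < N := by exact_mod_cast Nat.pos_of_ne_zero (NeZero.ne N)
  calc ∑ i, (1 / (N : ℝ)) * rate p x i ≤ ∑ _i : Fin N, (1 / (N : ℝ)) * 1 :=
        Finset.sum_le_sum fun i _ =>
          mul_le_mul_of_nonneg_left (rate_lt p hp x i).le (by positivity)
    _ = 1 := by
        rw [Finset.sum_const, Finset.card_univ, Fintype.card_fin, nsmul_eq_mul]
        field_simp

lemma trans_nonneg (hp : ∀ m, 0 < p m ∧ p m < 1) (x y : Conf N) : 0 ≤ trans N p x y := by
  unfold trans
  refine add_nonneg (Finset.sum_nonneg fun i _ => ?_) ?_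
  · split_ifs
    · exact mul_nonneg (by positivity) (rate_pos p hp x i).le
    · exact le_rfl
  · split_ifs
    · linarith [sum_rate_le p hp x]
    · exact le_rfl

lemma trans_sum (x : Conf N) : ∑ y, trans N p x y = 1 := by
  unfold trans
  rw [Finset.sum_add_distrib, Finset.sum_comm]
  simp

/-- one can set coordinate `i` to any value with probability bounded below -/
lemma trans_update (hp : ∀ m, 0 < p m ∧ p m < 1) (ε : ℝ)
    (hε : ∀ m, ε ≤ p m ∧ ε ≤ 1 - p m) (hε0 : 0 ≤ ε) (x : Conf N) (i : Fin N) (b : Bool) :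
    ε / N ≤ trans N p x (Function.update x i b) := by
  have hN : (0 : ℝ) < N := by exact_mod_cast Nat.pos_of_ne_zero (NeZero.ne N)
  have hr1 : ∀ i, ε ≤ rate p x i := by
    intro i; unfold rate; split_ifs
    · exact (hε _).2
    · exact (hε _).1
  have hr2 : ∀ i, rate p x i ≤ 1 - ε := by
    intro i; unfold rate; split_ifs
    · linarith [(hε (nbr x i)).1]
    · linarith [(hε (nbr x i)).2]
  unfold trans
  by_cases hb : b = x i
  · -- stay
    rw [hb, Function.update_eq_self, if_pos rfl]
    have h1 : 0 ≤ ∑ j, if x = flip x j then (1 / (N : ℝ)) * rate p x j else 0 := by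
      refine Finset.sum_nonneg fun j _ => ?_
      split_ifs
      · exact mul_nonneg (by positivity) (rate_pos p hp x j).le
      · exact le_rfl
    have h2 : ∑ i, (1 / (N : ℝ)) * rate p x i ≤ 1 - ε := by
      calc ∑ i, (1 / (N : ℝ)) * rate p x i ≤ ∑ _i : Fin N, (1 / (N : ℝ)) * (1 - ε) :=
            Finset.sum_le_sum fun i _ => mul_le_mul_of_nonneg_left (hr2 i) (by positivity)
        _ = 1 - ε := by
            rw [Finset.sum_const, Finset.card_univ, Fintype.card_fin, nsmul_eq_mul]
            field_simp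
    have h3 : ε / N ≤ ε := by
      rw [div_le_iff₀ hN]
      have : (1 : ℝ) ≤ N := by exact_mod_cast Nat.one_le_iff_ne_zero.2 (NeZero.ne N)
      nlinarith
    linarith
  · have hb' : b = !x i := by
      cases hx : x i <;> cases b <;> simp_all
    have h1 : (1 / (N : ℝ)) * rate p x i ≤
        ∑ j, if Function.update x i b = flip x j then (1 / (N : ℝ)) * rate p x j else 0 := by
      have := Finset.single_le_sum (f := fun j =>
        if Function.update x i b = flip x j then (1 / (N : ℝ)) * rate p x j else 0)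
        (fun j _ => by
          split_ifs
          · exact mul_nonneg (by positivity) (rate_pos p hp x j).le
          · exact le_rfl) (Finset.mem_univ i)
      rw [if_pos (by unfold flip; rw [hb'])] at this
      exact this
    have h2 : 0 ≤ (if Function.update x i b = x then
        1 - ∑ i, (1 / (N : ℝ)) * rate p x i else 0) := by
      split_ifs
      · linarith [sum_rate_le p hp x]
      · exact le_rfl
    have h3 : ε / N ≤ (1 / (N : ℝ)) * rate p x i := by
      rw [div_eq_mul_one_div, mul_comm]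
      exact mul_le_mul_of_nonneg_left (hr1 i) (by positivity)
    linarith

/-- after `k` steps the first `k` coordinates can take any prescribed value -/
lemma pow_pos_aux (hp : ∀ m, 0 < p m ∧ p m < 1) (ε : ℝ)
    (hε : ∀ m, ε ≤ p m ∧ ε ≤ 1 - p m) (hε0 : 0 ≤ ε) (x y : Conf N) (k : ℕ) :
    (ε / N) ^ k ≤ (trans N p ^ k) x (fun i => if (i : ℕ) < k then y i else x i) := by
  induction k with
  | zero =>
    have : (fun i : Fin N => if (i : ℕ) < 0 then y i else x i) = x := by
      funext i; simp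
    rw [this, pow_zero, pow_zero, Matrix.one_apply_eq]
  | succ k ih =>
    have hεN : 0 ≤ ε / N := by positivity
    set z : Conf N := fun i => if (i : ℕ) < k then y i else x i with hz
    rw [pow_succ, pow_succ, Matrix.mul_apply]
    have h1 : (ε / N) ^ k * (ε / N) ≤ (trans N p ^ k) x z *
        trans N p z (fun i => if (i : ℕ) < k + 1 then y i else x i) := by
      refine mul_le_mul ih ?_ hεN
        (Pool.Agent.Q208.Doeblin.pow_nonneg_entry _ (trans_nonneg p hp) k x z)
      by_cases hk : k < N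
      · have e : (fun i : Fin N => if (i : ℕ) < k + 1 then y i else x i) =
            Function.update z ⟨k, hk⟩ (y ⟨k, hk⟩) := by
          funext i
          by_cases hi : i = ⟨k, hk⟩
          · rw [hi, Function.update_self]; simp
          · rw [Function.update_of_ne hi, hz]
            have : (i : ℕ) ≠ k := fun h => hi (Fin.ext h)
            by_cases h : (i : ℕ) < k
            · simp [h, Nat.lt_succ_of_lt h]
            · have h' : ¬ ((i : ℕ) < k + 1) := by omega
              simp [h, h']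
        rw [e]
        exact trans_update p hp ε hε hε0 z _ _
      · have e : (fun i : Fin N => if (i : ℕ) < k + 1 then y i else x i) = z := by
          funext i
          have h1 : (i : ℕ) < k := by omega
          have h2 : (i : ℕ) < k + 1 := by omega
          simp [hz, h1, h2]
        rw [e]
        have := trans_update p hp ε hε hε0 z 0 (z 0)
        rwa [Function.update_eq_self] at this
    refine h1.trans ?_
    exact Finset.single_le_sum (f := fun w => (trans N p ^ k) x w *
        trans N p w (fun i => if (i : ℕ) < k + 1 then y i else x i))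
      (fun w _ => mul_nonneg
        (Pool.Agent.Q208.Doeblin.pow_nonneg_entry _ (trans_nonneg p hp) k x w)
        (trans_nonneg p hp w _)) (Finset.mem_univ z)

lemma pow_pos_entry (hp : ∀ m, 0 < p m ∧ p m < 1) (ε : ℝ)
    (hε : ∀ m, ε ≤ p m ∧ ε ≤ 1 - p m) (hε0 : 0 ≤ ε) (x y : Conf N) :
    (ε / N) ^ N ≤ (trans N p ^ N) x y := by
  have h := pow_pos_aux p hp ε hε hε0 x y N
  have e : (fun i : Fin N => if (i : ℕ) < N then y i else x i) = y := by
    funext i; simp
  rwa [e] at h

lemma ergodic_of_stat (hp : ∀ m, 0 < p m ∧ p m < 1) (π : Conf N → ℝ) (hd : IsDist π)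
    (hs : Matrix.vecMul π (trans N p) = π) : IsErgodicWith (trans N p) π := by
  obtain ⟨ε, hε0, hε⟩ : ∃ ε : ℝ, 0 < ε ∧ ∀ m, ε ≤ p m ∧ ε ≤ 1 - p m := by
    refine ⟨Finset.univ.inf' Finset.univ_nonempty (fun m => min (p m) (1 - p m)), ?_, ?_⟩
    · rw [Finset.lt_inf'_iff]
      intro m _
      exact lt_min (hp m).1 (by linarith [(hp m).2])
    · intro m
      have h := Finset.inf'_le (s := Finset.univ) (fun m => min (p m) (1 - p m))
        (Finset.mem_univ m)
      exact ⟨h.trans (min_le_left _ _), h.trans (min_le_right _ _)⟩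
  have hN : 0 < N := Nat.pos_of_ne_zero (NeZero.ne N)
  have hNR : (0 : ℝ) < N := by exact_mod_cast hN
  have hc : (0 : ℝ) < (ε / N) ^ N := by positivity
  have hP := pow_pos_entry (N := N) p hp ε hε hε0.le
  refine ⟨hd, hs, fun π' hd' hs' => ?_, fun ν hν y => ?_⟩
  · exact Pool.Agent.Q208.Doeblin.unique_of_pos (trans N p) (trans_nonneg p hp) (trans_sum p)
      N hN _ hc hP ⟨fun _ => true⟩ π π' hs hd.2 hs' hd'.2
  · exact Pool.Agent.Q208.Doeblin.tendsto_of_pos (trans N p) (trans_nonneg p hp) (trans_sum p)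
      N hN _ hc hP ⟨fun _ => true⟩ π hs hd.2 ν hν.2 y

end ergodic

/-! ### integer computations for `N = 4`, parameters `a / 20` -/

/-- `20 * rate` -/
def rateZ (a : Fin 4 → ℤ) (x : Conf 4) (i : Fin 4) : ℤ :=
  if x i then 20 - a (nbr x i) else a (nbr x i)

/-- `80 * trans` -/
def transZ (a : Fin 4 → ℤ) (x y : Conf 4) : ℤ :=
  (∑ i, if y = flip x i then rateZ a x i else 0) + (if y = x then 80 - ∑ i, rateZ a x i else 0)

lemma rate_eq (a : Fin 4 → ℤ) (x : Conf 4) (i : Fin 4) :
    rate (fun m => (a m : ℝ) / 20) x i = (rateZ a x i : ℝ) / 20 := by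
  unfold rate rateZ
  split_ifs
  · push_cast; ring
  · rfl

lemma trans_eq (a : Fin 4 → ℤ) (x y : Conf 4) :
    trans 4 (fun m => (a m : ℝ) / 20) x y = (transZ a x y : ℝ) / 80 := by
  unfold trans transZ
  simp only [rate_eq]
  push_cast
  rw [add_div, Finset.sum_div]
  congr 1
  · refine Finset.sum_congr rfl fun i _ => ?_
    split_ifs
    · ring
    · simp
  · split_ifs
    · rw [← Finset.mul_sum, ← Finset.sum_div]; ring
    · simp

/-- number of `1`s, refined: the configurations `0101` and `1010` are class `5` -/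
def cls (x : Conf 4) : ℕ :=
  if x 0 = x 2 ∧ x 1 = x 3 ∧ x 0 ≠ x 1 then 5 else ∑ i, if x i then 1 else 0

/-- weights: `w0` for `0000`, `w1` for one `1`, `w2` for `0011`, `w3`, `w4`, and `w5` for `0101` -/
def wgt (w : Fin 6 → ℤ) (x : Conf 4) : ℤ := w (Fin.ofNat 6 (cls x))

def totZ (w : Fin 6 → ℤ) : ℤ := ∑ x : Conf 4, wgt w x

def profZ (a : Fin 4 → ℤ) (w : Fin 6 → ℤ) : ℤ :=
  ∑ x : Conf 4, wgt w x * ∑ i, (2 * a (nbr x i) - 20)

lemma stat_of_int (a : Fin 4 → ℤ) (w : Fin 6 → ℤ) (hw : ∀ k, 0 < w k)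
    (h : ∀ y : Conf 4, ∑ x, wgt w x * transZ a x y = 80 * wgt w y)
    (ha : ∀ m, 0 < a m ∧ a m < 20) :
    IsErgodicWith (trans 4 (fun m => (a m : ℝ) / 20)) (fun x => (wgt w x : ℝ) / totZ w) := by
  have htot : 0 < totZ w := Finset.sum_pos (fun x _ => hw _) ⟨fun _ => true, Finset.mem_univ _⟩
  have htotR : (0 : ℝ) < totZ w := by exact_mod_cast htot
  refine ergodic_of_stat _ ?_ _ ⟨fun x => ?_, ?_⟩ ?_
  · intro m
    have h1 : (0 : ℝ) < a m := by exact_mod_cast (ha m).1
    have h2 : (a m : ℝ) < 20 := by exact_mod_cast (ha m).2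
    constructor
    · positivity
    · rw [div_lt_one (by norm_num)]; exact h2
  · have : (0 : ℝ) < wgt w x := by exact_mod_cast hw _
    positivity
  · rw [← Finset.sum_div]
    have : ∑ x, (wgt w x : ℝ) = totZ w := by unfold totZ; push_cast; rfl
    rw [this]; exact div_self htotR.ne'
  · funext y
    have h1 := h y
    have h2 : ∑ x, (wgt w x : ℝ) * (transZ a x y : ℝ) = 80 * (wgt w y : ℝ) := by
      exact_mod_cast h1
    have h3 : (Matrix.vecMul (fun x => (wgt w x : ℝ) / totZ w)
        (trans 4 (fun m => (a m : ℝ) / 20))) y =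
        (∑ x, (wgt w x : ℝ) * (transZ a x y : ℝ)) / (80 * totZ w) := by
      unfold Matrix.vecMul dotProduct
      rw [Finset.sum_div]
      refine Finset.sum_congr rfl fun x _ => ?_
      change (wgt w x : ℝ) / totZ w * trans 4 (fun m => (a m : ℝ) / 20) x y = _
      rw [trans_eq]
      field_simp
    rw [h3, h2]
    field_simp

lemma mean_eq (a : Fin 4 → ℤ) (w : Fin 6 → ℤ) (hw : ∀ k, 0 < w k) :
    meanProfit 4 (fun m => (a m : ℝ) / 20) (fun x => (wgt w x : ℝ) / totZ w) =
      (profZ a w : ℝ) / (80 * totZ w) := by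
  have htot : 0 < totZ w := Finset.sum_pos (fun x _ => hw _) ⟨fun _ => true, Finset.mem_univ _⟩
  have htotR : (0 : ℝ) < totZ w := by exact_mod_cast htot
  unfold meanProfit profZ
  push_cast
  rw [Finset.mul_sum, Finset.sum_div]
  refine Finset.sum_congr rfl fun x _ => ?_
  have : ∑ i, ((a (nbr x i) : ℝ) / 20 - (1 - (a (nbr x i) : ℝ) / 20)) =
      (∑ i, (2 * (a (nbr x i) : ℝ) - 20)) / 20 := by
    rw [Finset.sum_div]
    exact Finset.sum_congr rfl fun i _ => by ring
  rw [this]
  field_simp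
  ring

def a1 : Fin 4 → ℤ := ![16, 19, 19, 1]
def a2 : Fin 4 → ℤ := ![19, 19, 19, 1]
def a3 : Fin 4 → ℤ := ![19, 1, 1, 1]
def a4 : Fin 4 → ℤ := ![19, 1, 1, 4]
def w1 : Fin 6 → ℤ := ![969, 3876, 4180, 9956, 524, 50236]
def w2 : Fin 6 → ℤ := ![16, 304, 361, 1444, 76, 16606]
def w3 : Fin 6 → ℤ := ![76, 1444, 361, 304, 16, 16606]
def w4 : Fin 6 → ℤ := ![524, 9956, 4180, 3876, 969, 50236]

/-- For `N = 4` and for both `j = 0` and `j = 3` there are parameter vectors `p`, `p'` in `(0,1)⁴`
with ergodic chains that differ only in `p j < p' j` and have `μ(p) > μ(p')`. -/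
theorem result : ∀ j : Fin 4, j = 0 ∨ j = 3 → ∃ (p p' : Fin 4 → ℝ) (π π' : Conf 4 → ℝ),
    (∀ m, 0 < p m ∧ p m < 1) ∧ (∀ m, 0 < p' m ∧ p' m < 1) ∧
    (∀ m, m ≠ j → p m = p' m) ∧ p j < p' j ∧
    IsErgodicWith (trans 4 p) π ∧ IsErgodicWith (trans 4 p') π' ∧
    meanProfit 4 p' π' < meanProfit 4 p π := by
  have key : ∀ (j : Fin 4) (a a' : Fin 4 → ℤ) (w w' : Fin 6 → ℤ),
      (∀ m, 0 < a m ∧ a m < 20) → (∀ m, 0 < a' m ∧ a' m < 20) →
      (∀ m, m ≠ j → a m = a' m) → a j < a' j →
      (∀ k, 0 < w k) → (∀ k, 0 < w' k) →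
      (∀ y : Conf 4, ∑ x, wgt w x * transZ a x y = 80 * wgt w y) →
      (∀ y : Conf 4, ∑ x, wgt w' x * transZ a' x y = 80 * wgt w' y) →
      profZ a' w' * totZ w < profZ a w * totZ w' →
      ∃ (p p' : Fin 4 → ℝ) (π π' : Conf 4 → ℝ),
        (∀ m, 0 < p m ∧ p m < 1) ∧ (∀ m, 0 < p' m ∧ p' m < 1) ∧
        (∀ m, m ≠ j → p m = p' m) ∧ p j < p' j ∧
        IsErgodicWith (trans 4 p) π ∧ IsErgodicWith (trans 4 p') π' ∧
        meanProfit 4 p' π' < meanProfit 4 p π := by
    intro j a a' w w' ha ha' hj hlt hw hw' hs hs' hm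
    have hb : ∀ (a : Fin 4 → ℤ), (∀ m, 0 < a m ∧ a m < 20) →
        ∀ m, 0 < (a m : ℝ) / 20 ∧ (a m : ℝ) / 20 < 1 := by
      intro a ha m
      have h1 : (0 : ℝ) < a m := by exact_mod_cast (ha m).1
      have h2 : (a m : ℝ) < 20 := by exact_mod_cast (ha m).2
      constructor
      · positivity
      · rw [div_lt_one (by norm_num)]; exact h2
    refine ⟨fun m => (a m : ℝ) / 20, fun m => (a' m : ℝ) / 20,
      fun x => (wgt w x : ℝ) / totZ w, fun x => (wgt w' x : ℝ) / totZ w',
      hb a ha, hb a' ha', fun m hm => ?_, ?_, stat_of_int a w hw hs ha,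
      stat_of_int a' w' hw' hs' ha', ?_⟩
    · simp only [hj m hm]
    · have : (a j : ℝ) < a' j := by exact_mod_cast hlt
      simp only
      linarith
    · rw [mean_eq a w hw, mean_eq a' w' hw']
      have t1 : 0 < totZ w :=
        Finset.sum_pos (fun x _ => hw _) ⟨fun _ => true, Finset.mem_univ _⟩
      have t2 : 0 < totZ w' :=
        Finset.sum_pos (fun x _ => hw' _) ⟨fun _ => true, Finset.mem_univ _⟩
      have t1R : (0 : ℝ) < totZ w := by exact_mod_cast t1
      have t2R : (0 : ℝ) < totZ w' := by exact_mod_cast t2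
      have hmR : (profZ a' w' : ℝ) * totZ w < profZ a w * totZ w' := by exact_mod_cast hm
      rw [div_lt_div_iff₀ (by positivity) (by positivity)]
      linarith
  intro j hj
  rcases hj with rfl | rfl
  · exact key 0 a1 a2 w1 w2 (by decide) (by decide) (by decide) (by decide) (by decide) (by decide)
      (by decide +kernel) (by decide +kernel) (by decide +kernel)
  · exact key 3 a3 a4 w3 w4 (by decide) (by decide) (by decide) (by decide) (by decide) (by decide)
      (by decide +kernel) (by decide +kernel) (by decide +kernel)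

end Pool.Agent.Results.MP_313e16_pr.NotMonotone
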